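import Pool.Agent.L0h14.AF.Rel
import Pool.Agent.Results.MP_57341d_ag.ConifoldFamilies

/-!
# Fibres of families with maximally unipotent monodromy and a conifold point, over arbitrary fields

We consider families of motives over `ℚ` near a point `z = 0` with maximally unipotent monodromy: their matrices of solutions
are `Y(z) = H(z) exp(N log z)`, where `N` is a nilpotent matrix with `N^(n-1) ≠ 0`, and the entries of `H` and of `H⁻¹`
are G-functions with rational coefficients. We assume that `H` converges for `|z| < ρ` and that the local monodromy `T` of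
`Y` at the singularity `ρ > 0` is a pseudo-reflection, `T = 1 - u pᵀ`, with `tr(N^(n-1) (1 - T)) ≠ 0`. This is the situation of
the families of Calabi-Yau varieties and of the Apéry-like differential equations near a point of maximal degeneration,
where `ρ` is the nearest conifold point. The group generated by `exp(s N)` and `T` preserves a nondegenerate alternating form
(symplectic type), or a nondegenerate symmetric form (orthogonal type), or no nondegenerate bilinear form (linear type), and
there are no other cases (`MP_57341d_ag.ConifoldFamilies`). The Zariski closure of the group has the dimension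
`d = n (n + 1) / 2`, `n (n - 1) / 2` or `n² - 1`.

The periods of the fibre at `z = 1 / m` are the entries of `Y(1 / m) Ω`, where `Ω` is a constant matrix (the periods of the
limit motive). We study them over an ARBITRARY finitely generated field `ℚ(x_1, …, x_s)` of complex numbers, for instance over
the field of the periods of the limit motive, which contains the entries of `Ω`. Let `W` be any set of integers in the
short interval `[M, M + M^c]` which are at distance at least `G` of each other. We prove that there is a set `S` of at most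
`s + 1` elements of `W` such that for ALL `k`-tuples of different elements `m_1, …, m_k` of `W` outside of `S` the
transcendence degree over `ℚ(x_1, …, x_s)`, in degree at most `δ`, of the numbers `log m_l` and of the periods of the `k`
fibres is at least `k (d + 1)`. This is uniform in the complex numbers `x_i`, in the number fields of degree at most `D` and in
the bases, which can be algebraic over `ℚ(x_1, …, x_s)`.
-/

set_option autoImplicit false

open Module

namespace Pool.Agent.Results.MP_12eca1_ag.ConifoldFibres

open Pool.Agent.Results.MP_57341d_ag.ConifoldFamilies (Data Kind grp types system Yg_eq)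

/-- the dimension of the symplectic group, of the orthogonal group and of the special linear group -/
def dim {n : ℕ} : Kind n → ℕ
  | Kind.symplectic _ => n * (n + 1) / 2
  | Kind.orthogonal _ => n * (n - 1) / 2
  | Kind.linear => n ^ 2 - 1

/-- The number `z` satisfies a polynomial relation of degree at most `δ` over `K(x_1, …, x_s)`. -/
def AlgOver {s : ℕ} (δ : ℕ) (K : IntermediateField ℚ ℂ) (x : Fin s → ℂ) (z : ℂ) : Prop :=
  ∃ L : MvPolynomial (Fin s ⊕ Fin 1) K, L.totalDegree ≤ δ ∧ MvPolynomial.aeval (Sum.elim x fun _ => z) L = 0 ∧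
    ∃ w : Fin 1 → ℂ, MvPolynomial.aeval (Sum.elim x w) L ≠ 0

/-- Some `r` of the numbers `L_1, …, L_k` and of the entries of the matrices `P_1, …, P_k` (at `r` different places) satisfy no
polynomial relation of degree at most `δ` over `K(x_1, …, x_s)`: if a polynomial in `x_1, …, x_s` and in these `r` numbers
of degree at most `δ` with coefficients in `K` vanishes, then it vanishes at `(x_1, …, x_s, y)` for all `y`. -/
def TrdegGe {n k s : ℕ} (r δ : ℕ) (K : IntermediateField ℚ ℂ) (x : Fin s → ℂ) (L : Fin k → ℂ)
    (P : Fin k → Matrix (Fin n) (Fin n) ℂ) : Prop :=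
  ∃ σ : Fin r → Fin k × Option (Fin n × Fin n), Function.Injective σ ∧
    ∀ Q : MvPolynomial (Fin s ⊕ Fin r) K, Q.totalDegree ≤ δ →
      MvPolynomial.aeval (Sum.elim x fun i => (σ i).2.elim (L (σ i).1) fun p => P (σ i).1 p.1 p.2) Q = 0 →
        ∀ y : Fin r → ℂ, MvPolynomial.aeval (Sum.elim x y) Q = 0

theorem trdeg_mono {n k s r r' δ : ℕ} (hr : r' ≤ r) {K : IntermediateField ℚ ℂ}
    {x : Fin s → ℂ} {L : Fin k → ℂ} {P P' : Fin k → Matrix (Fin n) (Fin n) ℂ}
    (hP : ∀ l a b, P' l a b = P l b a) (h : TrdegGe r δ K x L P) : TrdegGe r' δ K x L P' := by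
  classical
  obtain ⟨σ, hσ, hh⟩ := h
  let sw : Fin k × Option (Fin n × Fin n) → Fin k × Option (Fin n × Fin n) := fun a => (a.1, a.2.map Prod.swap)
  have hsw : Function.Injective sw := by
    rintro ⟨a, b⟩ ⟨a', b'⟩ h
    simp only [sw, Prod.mk.injEq] at h
    obtain ⟨h1, h2⟩ := h
    exact Prod.ext h1 (Option.map_injective Prod.swap_injective h2)
  refine ⟨fun i => sw (σ (Fin.castLE hr i)), fun i j hij => ?_, fun Q hQ hQ0 y => ?_⟩
  · exact Fin.castLE_injective hr (hσ (hsw hij))
  · have hinj := Fin.castLE_injective hr
    have h1 := hh (MvPolynomial.rename (Sum.map id (Fin.castLE hr)) Q)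
      ((MvPolynomial.totalDegree_rename_le _ _).trans hQ) (by
      rw [MvPolynomial.aeval_rename]
      rw [← hQ0]
      congr 1
      congr 1
      funext i
      rcases i with i | i
      · rfl
      · simp only [Function.comp_apply, Sum.map_inr, Sum.elim_inr, sw]
        rcases (σ (Fin.castLE hr i)).2 with _ | p
        · rfl
        · show P _ p.1 p.2 = P' _ p.2 p.1
          rw [hP]) (Function.extend (Fin.castLE hr) y 0)
    rw [MvPolynomial.aeval_rename] at h1
    rw [← h1]
    congr 1
    congr 1
    funext i
    rcases i with i | i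
    · rfl
    · simp only [Function.comp_apply, Sum.map_inr, Sum.elim_inr]
      rw [hinj.extend_apply]

theorem hasDim {n : ℕ} {F : Data n} (h : F.Good) {κ : Kind n} (hκ : F.Admissible κ) :
    Pool.Agent.L0h14.HO.HasDim (grp κ) (dim κ) := by
  have hpos : 1 ≤ n := by
    rcases Nat.eq_zero_or_pos n with h0 | h0
    · subst h0
      exact absurd (by simp [Matrix.trace]) h.corner
    · exact h0
  rcases κ with J | J | _
  · obtain ⟨h1, h2, -, -⟩ := hκ
    exact Pool.Agent.L0h14.HO.dim_sp h1 h2
  · obtain ⟨h1, h2, -, -⟩ := hκ
    exact Pool.Agent.L0h14.HO.dim_so h1 h2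
  · exact Pool.Agent.L0h14.HO.dim_sl hpos 1

/-- Let `F` be a family over `ℚ` with maximally unipotent monodromy at `0` whose nearest singularity is a conifold point.
It has one of the three types; let `d` be the dimension of the group of its type and `Y` the matrix of solutions. Then there is
`G` such that for all `k`, `δ`, `D`, `s` there are `c > 0` and `M₀` such that for all `M ≥ M₀`, all sets `W` of integers in
`[M, M + M^c]` at distance at least `G` of each other and all complex numbers `x_1, …, x_s` there is a set `S` of at most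
`s + 1` integers such that for all `k`-tuples of different elements `m_l` of `W` outside of `S`, all number fields `K` of
degree at most `D` and all invertible matrices `A_l, B_l` whose entries satisfy polynomial relations of degree at most `δ`
over `K(x_1, …, x_s)`: the transcendence degree over `K(x_1, …, x_s)` of the numbers `log m_l` and of the entries of the
matrices `A_l Y(1 / m_l) B_l` is at least `k (d + 1)`, in degree at most `δ`. -/
theorem result {n : ℕ} (F : Data n) (hF : F.Good) :
    ∃ κ : Kind n, F.Admissible κ ∧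
    ∃ G : ℕ, ∀ k δ D s : ℕ, ∃ (c : ℝ) (M₀ : ℕ), 0 < c ∧ ∀ M : ℕ, M₀ ≤ M → ∀ W : Set ℕ,
      (∀ m ∈ W, M ≤ m ∧ (m : ℝ) ≤ M + (M : ℝ) ^ c) → (∀ m ∈ W, ∀ m' ∈ W, m ≠ m' → (G : ℤ) ≤ |(m : ℤ) - m'|) →
      ∀ x : Fin s → ℂ, ∃ S : Finset ℕ, S.card ≤ s + 1 ∧
        ∀ m : Fin k → ℕ, Function.Injective m → (∀ l, m l ∈ W ∧ m l ∉ S) →
        ∀ (K : IntermediateField ℚ ℂ) [FiniteDimensional ℚ K], finrank ℚ K ≤ D →
        ∀ A B : Fin k → Matrix (Fin n) (Fin n) ℂ, (∀ l, IsUnit (A l)) → (∀ l, IsUnit (B l)) →
          (∀ l a b, AlgOver δ K x (A l a b)) → (∀ l a b, AlgOver δ K x (B l a b)) →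
          TrdegGe (k * (dim κ + 1)) δ K x (fun l => ((Real.log (m l) : ℝ) : ℂ))
            fun l => A l * F.Y (1 / m l) * B l := by
  obtain ⟨κ, hκ⟩ := types hF
  refine ⟨κ, hκ, ?_⟩
  have hS := system hF hκ
  have hd := hasDim hF hκ
  have hrank := Pool.Agent.L0h14.HO.rank_geR hS hd
  obtain ⟨Nt, hNt, G, hG⟩ := Pool.Agent.L0h14.AF.rel_mainR hS
  refine ⟨G, fun k δ D s => ?_⟩
  obtain ⟨c, M₀, hc, h1⟩ := hG k δ D s
  refine ⟨c, M₀ + 1, hc, fun M hM W hW1 hW2 x => ?_⟩
  obtain ⟨S, hS1, h2⟩ := h1 M (by omega) W ⟨hW1, hW2⟩ x
  refine ⟨S, hS1, fun m hm hmW K _ hK A B uA uB aA aB => ?_⟩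
  have hunit : ∀ Ω : Matrix (Fin n) (Fin n) ℂ, IsUnit Ω → IsUnit Ω.transpose :=
    fun Ω hΩ => (Matrix.isUnit_transpose Ω).2 hΩ
  have h3 := h2 m hm hmW K hK (fun l => (B l).transpose) (fun l => (A l).transpose) (fun l => hunit _ (uB l))
    (fun l => hunit _ (uA l)) (fun l i j => aB l j i) (fun l i j => aA l j i)
  have h3' : TrdegGe (k * (Pool.Agent.Results.MP_cbf1af_ag.AllTuplesDegenerating.rank F.H.transpose + 1)) δ K x
      (fun l => ((Real.log (m l) : ℝ) : ℂ))
      (fun l => Pool.Agent.Results.MP_cbf1af_ag.AllTuplesDegenerating.periods (B l).transpose Nt F.H.transpose (m l) *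
        (A l).transpose) := h3
  clear h3
  refine trdeg_mono (Nat.mul_le_mul_left _ (Nat.add_le_add_right hrank 1)) (fun l a b => ?_) h3'
  have hml : 0 < m l := by
    have := (hW1 _ (hmW l).1).1
    omega
  have h4 := Pool.Agent.L0h14.HO.periods_eqG hNt hS.nil F.H (B l) (m l)
  rw [← Yg_eq F hml] at h4
  refine Eq.trans ?_ (Matrix.transpose_apply _ a b)
  rw [Matrix.transpose_mul, Matrix.transpose_transpose, h4, Matrix.mul_assoc]

end Pool.Agent.Results.MP_12eca1_ag.ConifoldFibres
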