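import Pool.Agent.L0h14.AF.Rel
import Pool.Agent.Results.MP_12eca1_ag.ConifoldFibres
import Pool.Agent.Results.MP_1eadae_ag.MixedConifoldFamilies

/-!
# Fibres of extensions of Calabi-Yau families by the trivial motive, over arbitrary fields

We consider one-parameter families of mixed motives over `ℚ` which are extensions of a family `V` of pure motives of rank `n` by
the trivial motive, or of the trivial motive by `V`, near a point `z = 0` with maximally unipotent monodromy: the matrices
of solutions are `Y(z) = H(z) exp(N log z)`, of size `n + 1`, where `N` is nilpotent with `N^n ≠ 0`, and the entries of `H`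
and of `H⁻¹` are G-functions with rational coefficients. The nearest singularity `ρ` is a conifold point of the family `V`
(`MP_1eadae_ag.MixedConifoldFamilies.Good`). Examples are given by the differential equations `L θ y = 0` and `θ L y = 0`,
where `L` is the Picard-Fuchs equation of a family of Calabi-Yau varieties with a point of maximal degeneration and
`θ = z d/dz` (primitives of periods, Mahler measures of tempered Laurent polynomials, inhomogeneous Picard-Fuchs equations). The
Zariski closure of the monodromy group has the dimension `d + n`, where `d = n (n + 1) / 2`, `n (n - 1) / 2` or `n² - 1`,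
if the pure part is of symplectic, orthogonal or linear type.

The periods of the fibre at `z = 1 / m` are the entries of `Y(1 / m) Ω`, where `Ω` is a constant matrix. We study them over an
ARBITRARY finitely generated field `ℚ(x_1, …, x_s)` of complex numbers. Let `W` be any set of integers in the short interval
`[M, M + M^c]` which are at distance at least `G` of each other. We prove that there is a set `S` of at most `s + 1` elements
of `W` such that for ALL `k`-tuples of different elements `m_1, …, m_k` of `W` outside of `S` the transcendence degree over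
`ℚ(x_1, …, x_s)`, in degree at most `δ`, of the numbers `log m_l` and of the periods of the `k` fibres is at least
`k (d + n + 1)`. In the notation of the conjecture this is the expected lower bound for the sum of the mixed motives of the
`k` fibres and of the Kummer motives of the `m_l`, relative to the field `ℚ(x_1, …, x_s)`.
-/

set_option autoImplicit false

open Module

namespace Pool.Agent.Results.MP_12eca1_ag.MixedConifoldFibres

open Pool.Agent.Results.MP_57341d_ag.ConifoldFamilies (Data Kind grp Yg_eq)
open Pool.Agent.Results.MP_12eca1_ag.ConifoldFibres (dim AlgOver TrdegGe trdeg_mono)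
open Pool.Agent.Results.MP_1eadae_ag.MixedConifoldFamilies (Side Good Admissible block system mgrp)

theorem hasDim {n : ℕ} (hn : 1 ≤ n) {N T : Matrix (Fin n) (Fin n) ℂ} {κ : Kind n} (hκ : Admissible N T κ) (σ : Side) :
    Pool.Agent.L0h14.HO.HasDim (mgrp κ σ) (dim κ + n) := by
  have h1 : Pool.Agent.L0h14.HO.HasDim (grp κ) (dim κ) := by
    rcases κ with J | J | _
    · obtain ⟨h1, h2, -, -⟩ := hκ
      exact Pool.Agent.L0h14.HO.dim_sp h1 h2
    · obtain ⟨h1, h2, -, -⟩ := hκ
      exact Pool.Agent.L0h14.HO.dim_so h1 h2
    · exact Pool.Agent.L0h14.HO.dim_sl hn 1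
  rcases σ with _ | _
  · exact Pool.Agent.L0h14.MX.dim_mB h1
  · exact Pool.Agent.L0h14.MX.dim_mA h1

/-- Let `F` be a family of mixed motives of rank `n + 1`, an extension of a family of rank `n` with maximally unipotent
monodromy at `0` whose nearest singularity is a conifold point by the trivial motive, or of the trivial motive by such a
family. The pure part has one of the three types; let `d` be the dimension of the group of its type. Then there is `G` such
that for all `k`, `δ`, `D`, `s` there are `c > 0` and `M₀` such that for all `M ≥ M₀`, all sets `W` of integers in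
`[M, M + M^c]` at distance at least `G` of each other and all complex numbers `x_1, …, x_s` there is a set `S` of at most
`s + 1` integers such that for all `k`-tuples of different elements `m_l` of `W` outside of `S`, all number fields `K` of
degree at most `D` and all invertible matrices `A_l, B_l` whose entries satisfy polynomial relations of degree at most `δ`
over `K(x_1, …, x_s)`: the transcendence degree over `K(x_1, …, x_s)` of the numbers `log m_l` and of the entries of the
matrices `A_l Y(1 / m_l) B_l` is at least `k (d + n + 1)`, in degree at most `δ`. -/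
theorem result {n : ℕ} (F : Data (n + 1)) (σ : Side) (hF : Good F σ) :
    ∃ κ : Kind n, Admissible (block F.Nc) (block F.T) κ ∧
    ∃ G : ℕ, ∀ k δ D s : ℕ, ∃ (c : ℝ) (M₀ : ℕ), 0 < c ∧ ∀ M : ℕ, M₀ ≤ M → ∀ W : Set ℕ,
      (∀ m ∈ W, M ≤ m ∧ (m : ℝ) ≤ M + (M : ℝ) ^ c) → (∀ m ∈ W, ∀ m' ∈ W, m ≠ m' → (G : ℤ) ≤ |(m : ℤ) - m'|) →
      ∀ x : Fin s → ℂ, ∃ S : Finset ℕ, S.card ≤ s + 1 ∧
        ∀ m : Fin k → ℕ, Function.Injective m → (∀ l, m l ∈ W ∧ m l ∉ S) →
        ∀ (K : IntermediateField ℚ ℂ) [FiniteDimensional ℚ K], finrank ℚ K ≤ D →
        ∀ A B : Fin k → Matrix (Fin (n + 1)) (Fin (n + 1)) ℂ, (∀ l, IsUnit (A l)) → (∀ l, IsUnit (B l)) →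
          (∀ l a b, AlgOver δ K x (A l a b)) → (∀ l a b, AlgOver δ K x (B l a b)) →
          TrdegGe (k * (dim κ + n + 1)) δ K x (fun l => ((Real.log (m l) : ℝ) : ℂ))
            fun l => A l * F.Y (1 / m l) * B l := by
  obtain ⟨κ, hκ, hS⟩ := system hF
  refine ⟨κ, hκ, ?_⟩
  have hd := hasDim hF.rank hκ σ
  have hrank := Pool.Agent.L0h14.HO.rank_geR hS hd
  obtain ⟨Nt, hNt, G, hG⟩ := Pool.Agent.L0h14.AF.rel_mainR hS
  refine ⟨G, fun k δ D s => ?_⟩
  obtain ⟨c, M₀, hc, h1⟩ := hG k δ D s
  refine ⟨c, M₀ + 1, hc, fun M hM W hW1 hW2 x => ?_⟩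
  obtain ⟨S, hS1, h2⟩ := h1 M (by omega) W ⟨hW1, hW2⟩ x
  refine ⟨S, hS1, fun m hm hmW K _ hK A B uA uB aA aB => ?_⟩
  have hunit : ∀ Ω : Matrix (Fin (n + 1)) (Fin (n + 1)) ℂ, IsUnit Ω → IsUnit Ω.transpose :=
    fun Ω hΩ => (Matrix.isUnit_transpose Ω).2 hΩ
  have h3 := h2 m hm hmW K hK (fun l => (B l).transpose) (fun l => (A l).transpose) (fun l => hunit _ (uB l))
    (fun l => hunit _ (uA l)) (fun l i j => aB l j i) (fun l i j => aA l j i)
  have h3' : TrdegGe (k * (Pool.Agent.Results.MP_cbf1af_ag.AllTuplesDegenerating.rank F.H.transpose + 1)) δ K x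
      (fun l => ((Real.log (m l) : ℝ) : ℂ))
      (fun l => Pool.Agent.Results.MP_cbf1af_ag.AllTuplesDegenerating.periods (B l).transpose Nt F.H.transpose (m l) *
        (A l).transpose) := h3
  clear h3
  refine trdeg_mono (Nat.mul_le_mul_left _ (Nat.add_le_add_right hrank 1)) (fun l a b => ?_) h3'
  have hml : 0 < m l := by
    have := (hW1 _ (hmW l).1).1
    omega
  have h4 := Pool.Agent.L0h14.HO.periods_eqG hNt hS.nil F.H (B l) (m l)
  rw [← Yg_eq F hml] at h4
  refine Eq.trans ?_ (Matrix.transpose_apply _ a b)
  rw [Matrix.transpose_mul, Matrix.transpose_transpose, h4, Matrix.mul_assoc]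

end Pool.Agent.Results.MP_12eca1_ag.MixedConifoldFibres
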