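import Mathlib
import Pool.Agent.L0h53.PL.Struct

/-!
# Products of two logarithms of rational numbers which are very close to a third one

Let `κ > 9`. There is a constant `C > 0`, depending on `κ` only, such that for every real `H ≥ 3` and
every positive rational number `c ≠ 1` of height at most `H` the following holds. Consider the pairs
`(a, b)` of positive rational numbers of height at most `H` with

  `|log a * log c - log b| ≤ exp (-C (log H) ^ κ)`.

* All these pairs are powers `(m ^ k, w ^ k)`, `k ∈ ℤ`, of one pair `(m, w)` of positive rational
  numbers.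
* There are at most `2 log H / log 2 + 1` such pairs.

The number `c` may vary with `H`. Here the height of a rational number is the maximum of the absolute
values of its numerator and its denominator.

The numbers `log a`, `log b`, `log c` are periods of the Kummer motive `H^1(G_m, {1, a, b, c})`. The
conjecture of the problem for this motive says that `2 π i` and the logarithms of multiplicatively
independent numbers are algebraically independent; so it implies that `log a * log c = log b` holds
only for `a = 1` or `c = 1` (in both cases with `b = 1`).

Method: the transcendence method for the points `(1, 1, c)`, `(0, a, r)`, `(0, a', r')` of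
`G_a × G_m ^ 2`, which are close to the points of a two-dimensional analytic subgroup (the
configuration of the five exponentials theorem), with a zero estimate, uniformly in `a`, `a'`, `c`;
the degenerate cases are excluded with a lower bound for `|v log x - u|` (`x` rational, `u`, `v`
integers, `|v| ≤ 2 log H`) from Padé approximations of the exponential function, and with lower
bounds for linear forms in the logarithms of two rational numbers with small coefficients.
-/

set_option autoImplicit false

namespace Pool.Agent.Results.MP_12eca1_ag.NearProductsOfLogs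

/-- the numerator and the denominator of `q` are at most `H` in absolute value -/
def HtLe (H : ℝ) (q : ℚ) : Prop := (|q.num| : ℝ) ≤ H ∧ (q.den : ℝ) ≤ H

/-- the pairs `(a, b)` of positive rational numbers of height at most `H` such that
`|log a * log c - log b| ≤ ε` -/
def NearPairs (H ε : ℝ) (c : ℚ) : Set (ℚ × ℚ) :=
  {p | 0 < p.1 ∧ 0 < p.2 ∧ HtLe H p.1 ∧ HtLe H p.2 ∧
    |Real.log (p.1 : ℝ) * Real.log (c : ℝ) - Real.log (p.2 : ℝ)| ≤ ε}

theorem result (κ : ℝ) (hκ : 9 < κ) : ∃ C : ℝ, 0 < C ∧ ∀ H : ℝ, 3 ≤ H →
    ∀ c : ℚ, 0 < c → HtLe H c → c ≠ 1 →
    (∃ m w : ℚ, 0 < m ∧ 0 < w ∧ ∀ p ∈ NearPairs H (Real.exp (-(C * Real.log H ^ κ))) c,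
      ∃ k : ℤ, p = (m ^ k, w ^ k)) ∧
    (NearPairs H (Real.exp (-(C * Real.log H ^ κ))) c).Finite ∧
    ((NearPairs H (Real.exp (-(C * Real.log H ^ κ))) c).ncard : ℝ) ≤
      2 * (Real.log H / Real.log 2) + 1 := by
  obtain ⟨C, hC, h⟩ := Pool.Agent.L0h53.PL.near_products κ hκ
  exact ⟨C, hC, fun H hH c hc hcH hc1 => h H hH c hc hcH hc1 _ fun p hp => hp⟩

end Pool.Agent.Results.MP_12eca1_ag.NearProductsOfLogs
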