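import Pool.Agent.L0h64.RP.Hel
import Pool.Agent.Results.MP_57341d_ag.HyperellipticAllTuples

/-!
# The periods of hyperelliptic curves over arbitrary fields: all tuples outside a bounded number of curves in short windows

`f ∈ ℚ[X]` is monic of degree `n = 2g` with `n` distinct real roots, all different from `0`, and `C(z)` is the curve
`y² = f(x) (x - z)` of genus `g`. We study the periods of the curves `C(1/t)`, `t` an integer, over an ARBITRARY finitely
generated field `ℚ(x_1, …, x_s)` of complex numbers over which the periods of the central fibre `C(0)` are algebraic (in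
particular `2πi`); besides generators of the field of the periods of `C(0)` it can contain any other numbers.

Let `W` be any set of integers in the short interval `[M, M + M^c]` which are at distance at least `G` of each other. We prove
that there is a set `S` of at most `s` elements such that for ALL `k`-tuples of different elements `t_1, …, t_k` of `W` outside
of `S` the transcendence degree over `ℚ(x_1, …, x_s)`, in degree at most `δ`, of the periods of the `k` curves `C(1/t_l)` is
`k g (2g + 1)`, which is the largest possible value. It follows that over `ℚ` the transcendence degree of the field generated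
by `x_1, …, x_s` and by the periods is, in degree at most `δ`, at least `k g (2g + 1) + 1`, the dimension of the motivic Galois
group of a general product of `k` curves of genus `g`, as predicted by André's conjecture for motives over arbitrary fields;
the result over `ℚ(x_1, …, x_s)` is stronger and not a consequence of this conjecture. It is uniform in the complex numbers
`x_i`, in the number fields of degree at most `D` and in the bases, which can be algebraic over `ℚ(x_1, …, x_s)`. If
`s₀` generators of the periods of the central fibre are among the `x_i`, at least `s - s₀` exceptions can be necessary, since the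
other `x_i` can be periods of `s - s₀` different curves `C(1/t)`.
-/

set_option autoImplicit false

open Polynomial

namespace Pool.Agent.Results.MP_12eca1_ag.TuplesOverArbitraryFields

open Pool.Agent.Results.MP_57341d_ag.HyperellipticAllTuples (branch periodMatrix)

variable {n : ℕ}

/-- The number `z` satisfies a polynomial relation of degree at most `δ` over `K(x_1, …, x_s)`. -/
def AlgOver {s : ℕ} (δ : ℕ) (K : IntermediateField ℚ ℂ) (x : Fin s → ℂ) (z : ℂ) : Prop :=
  ∃ L : MvPolynomial (Fin s ⊕ Fin 1) K, L.totalDegree ≤ δ ∧ MvPolynomial.aeval (Sum.elim x fun _ => z) L = 0 ∧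
    ∃ w : Fin 1 → ℂ, MvPolynomial.aeval (Sum.elim x w) L ≠ 0

/-- Some `r` of the entries of the matrices `P_1, …, P_k` (at `r` different places) satisfy no polynomial relation of degree at
most `δ` over `K(x_1, …, x_s)`: if a polynomial in `x_1, …, x_s` and in these `r` numbers of degree at most `δ` with
coefficients in `K` vanishes, then it vanishes at `(x_1, …, x_s, y)` for all `y`. -/
def TrdegGe {k s : ℕ} (r δ : ℕ) (K : IntermediateField ℚ ℂ) (x : Fin s → ℂ) (P : Fin k → Matrix (Fin n) (Fin n) ℂ) : Prop :=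
  ∃ σ : Fin r → Fin k × Fin n × Fin n, Function.Injective σ ∧
    ∀ Q : MvPolynomial (Fin s ⊕ Fin r) K, Q.totalDegree ≤ δ →
      MvPolynomial.aeval (Sum.elim x fun i => P (σ i).1 (σ i).2.1 (σ i).2.2) Q = 0 →
        ∀ y : Fin r → ℂ, MvPolynomial.aeval (Sum.elim x y) Q = 0

/-- Let `f ∈ ℚ[X]` be monic of even degree `n` with distinct real roots `a`, all different from `0`; `m` is the place of
`0` among the roots. There is `G` such that for all `k`, `δ`, `D`, `s` there are `c > 0` and `M₀` such that for all `M ≥ M₀` and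
all sets `W` of integers in `[M, M + M^c]` at distance at least `G` of each other: the `1 / t`, `t ∈ W`, are in the gap of `0`,
and for all complex numbers `x_1, …, x_s` there is a set `S` of at most `s` integers such that for all `k`-tuples of different
elements `t_l` of `W` outside of `S`, all number fields `K` of degree at most `D` such that the periods of the central fibre
`y² = f(x) x` satisfy polynomial relations of degree at most `δ` over `K(x_1, …, x_s)`, and all invertible matrices `A_l, B_l`
with this property: some `k n (n + 1) / 2` of the entries of the matrices `A_l * P_l * B_l`, `P_l` the period matrix of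
`y² = f(x) (x - 1 / t_l)`, satisfy no polynomial relation of degree at most `δ` over `K(x_1, …, x_s)`. -/
theorem result (hn : Even n) (a : Fin n → ℝ) (f : ℚ[X])
    (hf : f.map (algebraMap ℚ ℝ) = ∏ i, (X - C (a i))) (m : Fin (n + 1)) (h0 : StrictMono (branch a m 0)) :
    ∃ G : ℕ, ∀ k δ D s : ℕ, ∃ (c : ℝ) (M₀ : ℕ), 0 < c ∧ ∀ M : ℕ, M₀ ≤ M → ∀ W : Set ℕ,
      (∀ t ∈ W, M ≤ t ∧ (t : ℝ) ≤ M + (M : ℝ) ^ c) → (∀ t ∈ W, ∀ t' ∈ W, t ≠ t' → (G : ℤ) ≤ |(t : ℤ) - t'|) →
      (∀ t ∈ W, StrictMono (branch a m (1 / (t : ℝ)))) ∧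
      ∀ x : Fin s → ℂ, ∃ S : Finset ℕ, S.card ≤ s ∧
        ∀ t : Fin k → ℕ, Function.Injective t → (∀ l, t l ∈ W ∧ t l ∉ S) →
        ∀ (K : IntermediateField ℚ ℂ) [FiniteDimensional ℚ K], Module.finrank ℚ K ≤ D →
          (∀ i j, AlgOver δ K x (periodMatrix a m 0 i j)) →
          ∀ A B : Fin k → Matrix (Fin n) (Fin n) ℂ, (∀ l, IsUnit (A l)) → (∀ l, IsUnit (B l)) →
            (∀ l i j, AlgOver δ K x (A l i j)) → (∀ l i j, AlgOver δ K x (B l i j)) →
            TrdegGe (k * (n * (n + 1) / 2)) δ K x fun l => A l * periodMatrix a m (1 / (t l : ℝ)) * B l := by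
  classical
  obtain ⟨G0, hmain⟩ := Pool.Agent.L0h64.RP.Hel.hel_rel hn a f hf m h0
  refine ⟨G0, fun k δ D s => ?_⟩
  obtain ⟨E, hE⟩ := hmain k δ D s
  obtain ⟨c, M₀, hc, hw⟩ := Pool.Agent.Y124.TD.window E G0
  refine ⟨c, M₀, hc, fun M hM W hW1 hW2 => ?_⟩
  obtain ⟨Q, hQ⟩ : ∃ Q : ℕ, Q = M + (⌊(M : ℝ) ^ c⌋₊ + G0) := ⟨_, rfl⟩
  have hle : ∀ t ∈ W, t + G0 ≤ Q := by
    intro t ht
    have h1 := (hW1 t ht).2
    have h2 : ((t - M : ℕ) : ℝ) ≤ (M : ℝ) ^ c := by
      rw [Nat.cast_sub (hW1 t ht).1]
      linarith
    have h3 := Nat.le_floor h2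
    have := (hW1 t ht).1
    omega
  have hQt : ∀ t ∈ W, (Q : ℝ) - ((Q - t : ℕ) : ℝ) = t := fun t ht => by
    have := hle t ht
    rw [Nat.cast_sub (by omega)]
    ring
  obtain ⟨hmono, hmain2⟩ := hE (⌊(M : ℝ) ^ c⌋₊ + G0) Q ((hw M hM).trans (by omega)) ((fun t => Q - t) '' W) (by
    refine ⟨?_, ?_⟩
    · rintro _ ⟨t, ht, rfl⟩
      have h1 := hle t ht
      have h2 := (hW1 t ht).1
      change G0 ≤ Q - t ∧ Q - t ≤ _
      omega
    · rintro _ ⟨t, ht, rfl⟩ _ ⟨t', ht', rfl⟩ hne
      have h1 := hle t ht
      have h2 := hle t' ht'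
      have h3 : t ≠ t' := by
        rintro rfl
        exact hne rfl
      have h4 := hW2 t ht t' ht' h3
      change Q - t + G0 ≤ Q - t' ∨ Q - t' + G0 ≤ Q - t
      rcases le_total t t' with h7 | h7
      · right
        rw [abs_of_nonpos (by omega)] at h4
        omega
      · left
        rw [abs_of_nonneg (by omega)] at h4
        omega)
  refine ⟨fun t ht => ?_, fun x => ?_⟩
  · have h1 := hmono (Q - t) ⟨t, ht, rfl⟩
    rw [hQt t ht] at h1
    exact h1
  obtain ⟨S, hS, h1⟩ := hmain2 x
  refine ⟨S.image fun g => Q - g, Finset.card_image_le.trans hS, fun t ht htW K _ hK hC A B uA uB aA aB => ?_⟩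
  have hQm : ∀ l, Q - (Q - t l) = t l := fun l => by
    have := hle (t l) (htW l).1
    omega
  have hC' : ∀ i j, Pool.Agent.L0h64.RP.AlgOver δ K x (Pool.Agent.Y118.HP.CM a m 0 i j) := fun i j => hC i j
  have aA' : ∀ l i j, Pool.Agent.L0h64.RP.AlgOver δ K x (A l i j) := fun l i j => aA l i j
  have aB' : ∀ l i j, Pool.Agent.L0h64.RP.AlgOver δ K x (B l i j) := fun l i j => aB l i j
  have hinj : Function.Injective fun l => Q - t l := fun l l' hll => by
    apply ht
    have h1 : Q - (Q - t l) = Q - (Q - t l') := congrArg (fun a => Q - a) hll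
    rwa [hQm, hQm] at h1
  have hmem : ∀ l, Q - t l ∈ (fun t => Q - t) '' W ∧ Q - t l ∉ S := fun l =>
    ⟨⟨t l, (htW l).1, rfl⟩, fun h => (htW l).2 (Finset.mem_image.2 ⟨_, h, hQm l⟩)⟩
  obtain ⟨σ, hσ, hI⟩ := h1 (fun l => Q - t l) hinj hmem K hK hC' A B uA uB aA' aB'
  have hCM : ∀ z : ℝ, Pool.Agent.Y118.HP.CM a m z = periodMatrix a m z := fun z => rfl
  have e : (fun i => (A (σ i).1 * Pool.Agent.Y118.HP.CM a m (1 / ((Q : ℝ) - ((Q - t (σ i).1 : ℕ) : ℝ))) * B (σ i).1)
      (σ i).2.1 (σ i).2.2) = fun i => (A (σ i).1 * periodMatrix a m (1 / (t (σ i).1 : ℝ)) * B (σ i).1)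
        (σ i).2.1 (σ i).2.2 := by
    funext i
    rw [hCM, hQt _ (htW (σ i).1).1]
  rw [e] at hI
  exact ⟨σ, hσ, hI⟩

end Pool.Agent.Results.MP_12eca1_ag.TuplesOverArbitraryFields
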